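import Pool.Agent.W518.EG.Stms2

/-! EG-EX: construction of the model field. -/

set_option autoImplicit false

open IntermediateField
open Pool.Agent.Helper395.CS hiding genus

namespace Pool.Agent.W839.EG.Ex

open Polynomial

/-- quadratic extension -/
theorem quadExt (E : Type) [Field E] (q : E) (hq : ∀ b : E, b ^ 2 ≠ q) :
    ∃ (F : Type) (_ : Field F) (_ : Algebra E F) (W : F) (σ : F →+* F),
      Module.Finite E F ∧ W ^ 2 = algebraMap E F q ∧ σ W = -W ∧
      (∀ a : E, σ (algebraMap E F a) = algebraMap E F a) ∧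
      ∀ f : F, ∃ a b : E, f = algebraMap E F a + algebraMap E F b * W := by
  have hirr : Irreducible (X ^ 2 - C q : E[X]) :=
    X_pow_sub_C_irreducible_of_prime Nat.prime_two hq
  have : Fact (Irreducible (X ^ 2 - C q : E[X])) := ⟨hirr⟩
  have hW : (AdjoinRoot.root (X ^ 2 - C q : E[X])) ^ 2 =
      algebraMap E (AdjoinRoot (X ^ 2 - C q : E[X])) q := by
    have h := AdjoinRoot.eval₂_root (X ^ 2 - C q : E[X])
    rw [eval₂_sub, eval₂_pow, eval₂_X, eval₂_C, sub_eq_zero] at h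
    rw [h]; rfl
  refine ⟨AdjoinRoot (X ^ 2 - C q : E[X]), inferInstance, inferInstance,
    AdjoinRoot.root (X ^ 2 - C q : E[X]),
    AdjoinRoot.lift (algebraMap E _) (-AdjoinRoot.root (X ^ 2 - C q : E[X])) ?_, ?_, hW, ?_, ?_, ?_⟩
  · rw [eval₂_sub, eval₂_pow, eval₂_X, eval₂_C, neg_sq, hW, sub_self]
  · exact (AdjoinRoot.powerBasis hirr.ne_zero).finite
  · exact AdjoinRoot.lift_root _
  · intro a
    exact AdjoinRoot.lift_of _
  · intro f
    obtain ⟨p, rfl⟩ := AdjoinRoot.mk_surjective f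
    induction p using Polynomial.induction_on' with
    | add p q hp hq' =>
      obtain ⟨a, b, h1⟩ := hp
      obtain ⟨a', b', h2⟩ := hq'
      refine ⟨a + a', b + b', ?_⟩
      rw [map_add, h1, h2, map_add, map_add]
      ring
    | monomial n c =>
      have h1 : (AdjoinRoot.mk (X ^ 2 - C q : E[X])) (monomial n c) =
          algebraMap E (AdjoinRoot (X ^ 2 - C q : E[X])) c *
            (AdjoinRoot.root (X ^ 2 - C q : E[X])) ^ n := by
        rw [← C_mul_X_pow_eq_monomial, map_mul, map_pow, AdjoinRoot.mk_X]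
        rfl
      rw [h1]
      clear h1
      induction n with
      | zero => exact ⟨c, 0, by simp⟩
      | succ n ih =>
        obtain ⟨a, b, h2⟩ := ih
        refine ⟨b * q, a, ?_⟩
        rw [map_mul]
        linear_combination (AdjoinRoot.root (X ^ 2 - C q : E[X])) * h2 +
          (algebraMap E (AdjoinRoot (X ^ 2 - C q : E[X])) b) * hW

/-- Kummer extension of degree 7 -/
theorem kumExt (F : Type) [Field F] (T : F) (hT : ∀ b : F, b ^ 7 ≠ T) :
    ∃ (K : Type) (_ : Field K) (_ : Algebra F K) (t : K),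
      Module.Finite F K ∧ t ^ 7 = algebraMap F K T ∧
      (∀ (φ : F →+* K) (s : K), s ^ 7 = φ T → ∃ Φ : K →+* K, Φ t = s ∧
        ∀ a : F, Φ (algebraMap F K a) = φ a) ∧
      ∀ P : K → Prop, (∀ a b, P a → P b → P (a + b)) →
        (∀ (n : ℕ) (c : F), P (algebraMap F K c * t ^ n)) → ∀ k, P k := by
  have hirr : Irreducible (X ^ 7 - C T : F[X]) :=
    X_pow_sub_C_irreducible_of_prime (by norm_num) hT
  have : Fact (Irreducible (X ^ 7 - C T : F[X])) := ⟨hirr⟩
  have hW : (AdjoinRoot.root (X ^ 7 - C T : F[X])) ^ 7 =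
      algebraMap F (AdjoinRoot (X ^ 7 - C T : F[X])) T := by
    have h := AdjoinRoot.eval₂_root (X ^ 7 - C T : F[X])
    rw [eval₂_sub, eval₂_pow, eval₂_X, eval₂_C, sub_eq_zero] at h
    rw [h]; rfl
  refine ⟨AdjoinRoot (X ^ 7 - C T : F[X]), inferInstance, inferInstance,
    AdjoinRoot.root (X ^ 7 - C T : F[X]), (AdjoinRoot.powerBasis hirr.ne_zero).finite, hW, ?_, ?_⟩
  · intro φ s hs
    refine ⟨AdjoinRoot.lift φ s ?_, AdjoinRoot.lift_root _, fun a => AdjoinRoot.lift_of _⟩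
    rw [eval₂_sub, eval₂_pow, eval₂_X, eval₂_C, hs, sub_self]
  · intro P hadd hmon k
    obtain ⟨p, rfl⟩ := AdjoinRoot.mk_surjective k
    induction p using Polynomial.induction_on' with
    | add p q hp hq' =>
      rw [map_add]; exact hadd _ _ hp hq'
    | monomial n c =>
      have h1 : (AdjoinRoot.mk (X ^ 7 - C T : F[X])) (monomial n c) =
          algebraMap F (AdjoinRoot (X ^ 7 - C T : F[X])) c *
            (AdjoinRoot.root (X ^ 7 - C T : F[X])) ^ n := by
        rw [← C_mul_X_pow_eq_monomial, map_mul, map_pow, AdjoinRoot.mk_X]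
        rfl
      rw [h1]
      exact hmon n c

/-- the polynomial `q` -/
noncomputable def q0 : ℂ[X] := (X ^ 2 - 4) * (4 * X ^ 2 - 12 * X + 41)

/-- the polynomial `A` -/
noncomputable def A0 : ℂ[X] := (X + 2) * (2 * X ^ 2 - 5 * X + 11) ^ 2 - 162

lemma q_not_sq (b : RatFunc ℂ) : b ^ 2 ≠ algebraMap ℂ[X] (RatFunc ℂ) q0 := by
  intro h
  have hint : IsIntegral ℂ[X] b := by
    apply IsIntegral.of_pow (n := 2) (by norm_num)
    rw [h]
    exact isIntegral_algebraMap
  obtain ⟨b0, hb0⟩ := IsIntegrallyClosed.algebraMap_eq_of_integral hint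
  rw [← hb0, ← map_pow] at h
  have h1 : b0 ^ 2 = q0 := IsFractionRing.injective ℂ[X] (RatFunc ℂ) h
  have h2 := congrArg (Polynomial.eval 2) h1
  have h3 := congrArg (fun p => Polynomial.eval 2 (derivative p)) h1
  unfold q0 at h2 h3
  simp only [eval_pow, eval_mul, eval_sub, eval_add, eval_X, eval_ofNat] at h2
  simp only [derivative_pow, derivative_mul, derivative_sub, derivative_add, derivative_X,
    derivative_ofNat, eval_pow, eval_mul, eval_sub, eval_add, eval_X, eval_ofNat] at h3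
  have h4 : Polynomial.eval 2 b0 = 0 := by
    have : Polynomial.eval 2 b0 ^ 2 = 0 := by rw [h2]; norm_num
    exact pow_eq_zero_iff (by norm_num) |>.1 this
  norm_num [h4] at h3

lemma A0_deg : A0.natDegree = 5 := by
  unfold A0
  have : ((X + 2) * (2 * X ^ 2 - 5 * X + 11) ^ 2 - 162 : ℂ[X]) =
      4 * X ^ 5 - 12 * X ^ 4 + 29 * X ^ 3 + 28 * X ^ 2 - 99 * X + 80 := by ring
  rw [this]
  compute_degree!

/-- the core of the irreducibility -/
lemma no_root (c x : RatFunc ℂ) (hc : c ^ 7 = 1)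
    (hx : 81 * (x ^ 7 - 7 * c * x ^ 5 + 14 * c ^ 2 * x ^ 3 - 7 * c ^ 3 * x) =
      algebraMap ℂ[X] (RatFunc ℂ) A0) : False := by
  have hcint : IsIntegral ℂ[X] c := by
    apply IsIntegral.of_pow (n := 7) (by norm_num)
    rw [hc]; exact isIntegral_one
  obtain ⟨c0, hc0⟩ := IsIntegrallyClosed.algebraMap_eq_of_integral hcint
  have hinj := IsFractionRing.injective ℂ[X] (RatFunc ℂ)
  have hc1 : c0 ^ 7 = 1 := by
    apply hinj
    rw [map_pow, hc0, hc, map_one]
  have hC : algebraMap ℂ[X] (RatFunc ℂ) (C (1 / 81)) * 81 = 1 := by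
    have : (81 : RatFunc ℂ) = algebraMap ℂ[X] (RatFunc ℂ) (C 81) := by
      exact (map_ofNat (algebraMap ℂ[X] (RatFunc ℂ)) 81).symm
    rw [this, ← map_mul, ← C_mul]
    norm_num
  have hx' : x ^ 7 - 7 * c * x ^ 5 + 14 * c ^ 2 * x ^ 3 - 7 * c ^ 3 * x =
      algebraMap ℂ[X] (RatFunc ℂ) (C (1 / 81) * A0) := by
    rw [map_mul, ← hx, ← mul_assoc, hC, one_mul]
  have hxint : IsIntegral ℂ[X] x := by
    refine ⟨X ^ 7 - C (7 * c0) * X ^ 5 + C (14 * c0 ^ 2) * X ^ 3 - C (7 * c0 ^ 3) * X -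
      C (C (1 / 81) * A0), ?_, ?_⟩
    · monicity!
    · simp only [eval₂_sub, eval₂_add, eval₂_mul, eval₂_pow, eval₂_X, eval₂_C]
      rw [← hx']
      simp only [map_mul, map_pow, hc0, map_ofNat]
      ring
  obtain ⟨x0, hx0⟩ := IsIntegrallyClosed.algebraMap_eq_of_integral hxint
  have hx1 : x0 ^ 7 - 7 * c0 * x0 ^ 5 + 14 * c0 ^ 2 * x0 ^ 3 - 7 * c0 ^ 3 * x0 =
      C (1 / 81) * A0 := by
    apply hinj
    rw [← hx', ← hx0, ← hc0]
    simp only [map_sub, map_add, map_mul, map_pow, map_ofNat]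
  have hcd : c0.natDegree = 0 := by
    have h1 := congrArg natDegree hc1
    rw [natDegree_pow, natDegree_one] at h1
    omega
  obtain ⟨γ, hγ⟩ := natDegree_eq_zero.1 hcd
  have hAd : (C (1 / 81) * A0).natDegree = 5 := by
    rw [natDegree_C_mul (by norm_num), A0_deg]
  set m := x0.natDegree with hm
  have b5 : (7 * c0 * x0 ^ 5).natDegree ≤ 5 * m := by
    rw [← hγ, show (7 * C γ * x0 ^ 5 : ℂ[X]) = C (7 * γ) * x0 ^ 5 by rw [C_mul]; rfl]
    exact (natDegree_C_mul_le _ _).trans natDegree_pow_le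
  have b3 : (14 * c0 ^ 2 * x0 ^ 3).natDegree ≤ 3 * m := by
    rw [← hγ, show (14 * (C γ) ^ 2 * x0 ^ 3 : ℂ[X]) = C (14 * γ ^ 2) * x0 ^ 3 by
      rw [C_mul, C_pow]; rfl]
    exact (natDegree_C_mul_le _ _).trans natDegree_pow_le
  have b1 : (7 * c0 ^ 3 * x0).natDegree ≤ m := by
    rw [← hγ, show (7 * (C γ) ^ 3 * x0 : ℂ[X]) = C (7 * γ ^ 3) * x0 by
      rw [C_mul, C_pow]; rfl]
    exact natDegree_C_mul_le _ _
  have b7 : (x0 ^ 7).natDegree = 7 * m := natDegree_pow _ _
  have hx2 : x0 ^ 7 = C (1 / 81) * A0 + 7 * c0 * x0 ^ 5 - 14 * c0 ^ 2 * x0 ^ 3 + 7 * c0 ^ 3 * x0 := by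
    rw [← hx1]; ring
  have h7 : (x0 ^ 7).natDegree ≤ max 5 (5 * m) := by
    rw [hx2]
    refine (natDegree_add_le _ _).trans (max_le ?_ (by omega))
    refine (natDegree_sub_le _ _).trans (max_le ?_ (by omega))
    refine (natDegree_add_le _ _).trans (max_le (by omega) (by omega))
  have hm0 : m = 0 := by omega
  have h5 : (C (1 / 81) * A0).natDegree ≤ 0 := by
    rw [← hx1]
    refine (natDegree_sub_le _ _).trans (max_le ?_ (by omega))
    refine (natDegree_add_le _ _).trans (max_le ?_ (by omega))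
    refine (natDegree_sub_le _ _).trans (max_le (by omega) (by omega))
  omega

/-- a transcendence degree computation -/
lemma isCurve_of (K : Type) [Field K] [Algebra ℂ K] [Algebra ℂ[X] K] [IsScalarTower ℂ ℂ[X] K]
    [Algebra.IsAlgebraic ℂ[X] K] (hinj : Function.Injective (algebraMap ℂ[X] K))
    (S : Set K) (hS : S.Finite) (hgen : IntermediateField.adjoin ℂ S = ⊤) : IsCurve K := by
  refine ⟨?_, ?_⟩
  · exact ⟨hS.toFinset, by rw [Set.Finite.coe_toFinset]; exact hgen⟩
  · have hf : FaithfulSMul ℂ[X] K := (faithfulSMul_iff_algebraMap_injective ℂ[X] K).2 hinj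
    have h := trdeg_add_eq ℂ ℂ[X] (A := K)
    rw [Polynomial.trdeg_of_isDomain, trdeg_eq_zero (R := ℂ[X]) (A := K), add_zero] at h
    exact h.symm

lemma alg_of (F K : Type) [Field F] [Algebra (RatFunc ℂ) F] [Module.Finite (RatFunc ℂ) F] [Field K]
    [Algebra F K] [Module.Finite F K] [Algebra (RatFunc ℂ) K] [IsScalarTower (RatFunc ℂ) F K]
    [Algebra ℂ[X] K] [IsScalarTower ℂ[X] (RatFunc ℂ) K] : Algebra.IsAlgebraic ℂ[X] K := by
  have : Module.Finite (RatFunc ℂ) K := Module.Finite.trans F K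
  have : Algebra.IsAlgebraic (RatFunc ℂ) K := Algebra.IsAlgebraic.of_finite _ _
  have : Algebra.IsAlgebraic ℂ[X] (RatFunc ℂ) :=
    IsLocalization.isAlgebraic (S := RatFunc ℂ) (nonZeroDivisors ℂ[X])
  exact Algebra.IsAlgebraic.trans ℂ[X] (RatFunc ℂ) K

theorem s_EX : Pool.Agent.W518.EG.S_EX := by
  -- the quadratic extension
  obtain ⟨F, iF, iEF, W, σ, hFfin, hW, hσW, hσE, hFrep⟩ :=
    quadExt (RatFunc ℂ) (algebraMap ℂ[X] (RatFunc ℂ) q0) q_not_sq
  set e : RatFunc ℂ →+* F := algebraMap (RatFunc ℂ) F with he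
  set Z : F := e (algebraMap ℂ[X] (RatFunc ℂ) X) with hZ
  have hq : e (algebraMap ℂ[X] (RatFunc ℂ) q0) = (Z ^ 2 - 4) * (4 * Z ^ 2 - 12 * Z + 41) := by
    unfold q0
    simp only [map_sub, map_add, map_mul, map_pow, map_ofNat, hZ]
  have hA : e (algebraMap ℂ[X] (RatFunc ℂ) A0) =
      (Z + 2) * (2 * Z ^ 2 - 5 * Z + 11) ^ 2 - 162 := by
    unfold A0
    simp only [map_sub, map_add, map_mul, map_pow, map_ofNat, hZ]
  rw [hq] at hW
  have hchar : CharZero F := charZero_of_injective_algebraMap (algebraMap (RatFunc ℂ) F).injective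
  -- the element T
  set T : F := ((Z + 2) * (2 * Z ^ 2 - 5 * Z + 11) ^ 2 - 162 +
    (2 * Z ^ 2 - 5 * Z + 11) * (Z + 1) * W) / 162 with hT
  have h162 : (162 : F) ≠ 0 := by norm_num
  have hσZ : σ Z = Z := hσE _
  have hσT : σ T = ((Z + 2) * (2 * Z ^ 2 - 5 * Z + 11) ^ 2 - 162 -
    (2 * Z ^ 2 - 5 * Z + 11) * (Z + 1) * W) / 162 := by
    rw [hT]
    simp only [map_div₀, map_sub, map_add, map_mul, map_pow, map_ofNat, map_one, hσZ, hσW]
    ring
  have hTT : T * σ T = 1 := by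
    rw [hσT, hT]
    field_simp
    linear_combination (-(2 * Z ^ 2 - 5 * Z + 11) ^ 2 * (Z + 1) ^ 2) * hW
  have hT7 : ∀ b : F, b ^ 7 ≠ T := by
    intro g hg
    obtain ⟨a, b, hab⟩ := hFrep g
    have hσg : σ g = e a - e b * W := by
      rw [hab, map_add, map_mul, hσE, hσE, hσW]; ring
    set c : RatFunc ℂ := a ^ 2 - b ^ 2 * algebraMap ℂ[X] (RatFunc ℂ) q0 with hc
    have hgc : g * σ g = e c := by
      rw [hσg, hab, hc, map_sub, map_pow, map_mul, map_pow, hq]
      linear_combination (-(e b) ^ 2) * hW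
    have hgs : g + σ g = e (2 * a) := by
      rw [hσg, hab, map_mul, map_ofNat]; ring
    have hc7 : c ^ 7 = 1 := by
      apply e.injective
      rw [map_pow, ← hgc, mul_pow, ← map_pow, hg, hTT, map_one]
    refine no_root c (2 * a) hc7 ?_
    apply e.injective
    have h1 : g ^ 7 + (σ g) ^ 7 = T + σ T := by rw [← map_pow, hg]
    have h2 : 81 * (T + σ T) = (Z + 2) * (2 * Z ^ 2 - 5 * Z + 11) ^ 2 - 162 := by
      rw [hσT, hT]; field_simp; ring
    rw [hA, ← h2, ← h1]
    simp only [map_sub, map_add, map_mul e, map_pow e, map_ofNat]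
    have h3 : (2 : F) * e a = g + σ g := by rw [hgs, map_mul, map_ofNat]
    rw [h3, ← hgc]
    ring
  -- the Kummer extension
  obtain ⟨K, iK, iFK, t, hKfin, ht7, hlift, hind⟩ := kumExt F T hT7
  set j : F →+* K := algebraMap F K with hj
  have hext : ∀ Φ Ψ : K →+* K, Φ t = Ψ t → (∀ a : F, Φ (j a) = Ψ (j a)) → ∀ k, Φ k = Ψ k := by
    intro Φ Ψ h1 h2
    apply hind
    · intro a b ha hb; rw [map_add, map_add, ha, hb]
    · intro n c; rw [map_mul, map_mul, map_pow, map_pow, h1, h2]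
  -- algebra structures
  letI iCK : Algebra ℂ K := (j.comp (e.comp (algebraMap ℂ (RatFunc ℂ)))).toAlgebra
  letI iPK : Algebra ℂ[X] K := (j.comp (e.comp (algebraMap ℂ[X] (RatFunc ℂ)))).toAlgebra
  letI iEK : Algebra (RatFunc ℂ) K := (j.comp e).toAlgebra
  have hCK : ∀ c : ℂ, algebraMap ℂ K c = j (e (algebraMap ℂ (RatFunc ℂ) c)) := fun c => rfl
  have hPK : ∀ c : ℂ[X], algebraMap ℂ[X] K c = j (e (algebraMap ℂ[X] (RatFunc ℂ) c)) :=
    fun c => rfl
  have hEK : ∀ c : RatFunc ℂ, algebraMap (RatFunc ℂ) K c = j (e c) := fun c => rfl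
  haveI : IsScalarTower ℂ ℂ[X] K := IsScalarTower.of_algebraMap_eq fun c => by
    rw [hCK, hPK, ← IsScalarTower.algebraMap_apply ℂ ℂ[X] (RatFunc ℂ)]
  haveI : IsScalarTower (RatFunc ℂ) F K := IsScalarTower.of_algebraMap_eq fun c => rfl
  haveI : IsScalarTower ℂ[X] (RatFunc ℂ) K := IsScalarTower.of_algebraMap_eq fun c => rfl
  haveI : Algebra.IsAlgebraic ℂ[X] K := alg_of F K
  have hPinj : Function.Injective (algebraMap ℂ[X] K) := by
    have h1 : Function.Injective (algebraMap ℂ[X] (RatFunc ℂ)) :=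
      IsFractionRing.injective ℂ[X] (RatFunc ℂ)
    exact j.injective.comp (e.injective.comp h1)
  -- the elements
  set z : K := j Z with hz
  have hzX : algebraMap ℂ[X] K X = z := rfl
  have hpoly : ∀ p : ℂ[X], algebraMap ℂ[X] K p = aeval z p := by
    intro p
    have h1 : aeval (algebraMap ℂ[X] K X) p = algebraMap ℂ[X] K (aeval X p) :=
      aeval_algebraMap_apply K (X : ℂ[X]) p
    rw [← hzX, h1, aeval_X_left_apply]
  have hEmem : ∀ c : RatFunc ℂ, j (e c) ∈ ℂ⟮z⟯ := by
    intro c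
    have h1 : ∀ p : ℂ[X], j (e (algebraMap ℂ[X] (RatFunc ℂ) p)) ∈ ℂ⟮z⟯ := by
      intro p
      rw [← hPK, hpoly]
      exact (aeval_mem_adjoin_singleton ℂ z |> fun h => algebra_adjoin_le_adjoin ℂ _ h)
    rw [← RatFunc.num_div_denom c, map_div₀, map_div₀]
    exact div_mem (h1 _) (h1 _)
  have ht0 : t ≠ 0 := by
    intro h
    rw [h] at ht7
    have h1 : T = 0 := j.injective (by rw [map_zero, ← ht7]; norm_num)
    rw [h1, zero_mul] at hTT
    exact zero_ne_one hTT
  -- the root of unity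
  obtain ⟨ζ, hζ⟩ : ∃ ζ : ℂ, IsPrimitiveRoot ζ 7 :=
    ⟨_, Complex.isPrimitiveRoot_exp 7 (by norm_num)⟩
  obtain ⟨ρ, hρt, hρF⟩ := hlift j (algebraMap ℂ K ζ * t) (by
    rw [mul_pow, ← map_pow, hζ.pow_eq_one, map_one, one_mul, ht7])
  obtain ⟨ι, hιt, hιF⟩ := hlift (j.comp σ) t⁻¹ (by
    rw [inv_pow, ht7, RingHom.comp_apply]
    apply inv_eq_of_mul_eq_one_right
    rw [← map_mul, hTT, map_one])
  have hρpow : ∀ (n : ℕ), ∀ f : F, (ρ ^ n) (j f) = j f := by
    intro n f
    induction n with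
    | zero => rfl
    | succ n ih => rw [pow_succ, RingHom.mul_def, RingHom.comp_apply, hρF, ih]
  have hρC : ∀ c : ℂ, ρ (algebraMap ℂ K c) = algebraMap ℂ K c := fun c => hρF _
  have hρtn : ∀ (n : ℕ), (ρ ^ n) t = algebraMap ℂ K ζ ^ n * t := by
    intro n
    induction n with
    | zero => rw [pow_zero, pow_zero, one_mul]; rfl
    | succ n ih =>
      rw [pow_succ, RingHom.mul_def, RingHom.comp_apply, hρt, map_mul, ih]
      rw [hCK ζ, hρpow, pow_succ]; ring
  have hρ7 : ∀ k, (ρ ^ 7) k = k := by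
    apply hext (ρ ^ 7) (RingHom.id K)
    · rw [hρtn, ← map_pow, hζ.pow_eq_one, map_one, one_mul]; rfl
    · intro a; exact hρpow 7 a
  have hσσ : ∀ f : F, σ (σ f) = f := by
    intro f
    obtain ⟨a, b, rfl⟩ := hFrep f
    rw [map_add, map_mul, hσE, hσE, hσW, map_add, map_mul, map_neg, hσE, hσE, hσW, neg_neg]
  have hιι : ∀ k, ι (ι k) = k := by
    apply hext (ι.comp ι) (RingHom.id K)
    · rw [RingHom.comp_apply, hιt, map_inv₀, hιt, inv_inv]; rfl
    · intro a
      rw [RingHom.comp_apply, hιF, RingHom.comp_apply, hιF, RingHom.comp_apply, hσσ]; rfl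
  -- the automorphisms
  let ρA : K →ₐ[ℂ] K := { ρ with commutes' := hρC }
  let ρB : K →ₐ[ℂ] K := { (ρ ^ 6) with commutes' := fun c => hρpow 6 _ }
  have hιC : ∀ c : ℂ, ι (algebraMap ℂ K c) = algebraMap ℂ K c := by
    intro c
    rw [hCK, hιF, RingHom.comp_apply]
    congr 1
    exact hσE _
  let ιA : K →ₐ[ℂ] K := { ι with commutes' := hιC }
  let ρE : K ≃ₐ[ℂ] K := AlgEquiv.ofAlgHom ρA ρB
    (by
      ext k
      change ρ ((ρ ^ 6) k) = k
      have h1 := hρ7 k
      rw [pow_succ', RingHom.mul_def, RingHom.comp_apply] at h1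
      exact h1)
    (by
      ext k
      change (ρ ^ 6) (ρ k) = k
      have h1 := hρ7 k
      rw [pow_succ, RingHom.mul_def, RingHom.comp_apply] at h1
      exact h1)
  let ιE : K ≃ₐ[ℂ] K := AlgEquiv.ofAlgHom ιA ιA (by ext k; exact hιι k) (by ext k; exact hιι k)
  have hρE : ∀ k, ρE k = ρ k := fun k => rfl
  have hιE : ∀ k, ιE k = ι k := fun k => rfl
  -- relations
  have htpow : 162 * t ^ 7 = (z + 2) * (2 * z ^ 2 - 5 * z + 11) ^ 2 - 162 +
      (2 * z ^ 2 - 5 * z + 11) * (z + 1) * j W := by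
    have h1 : 162 * T = (Z + 2) * (2 * Z ^ 2 - 5 * Z + 11) ^ 2 - 162 +
      (2 * Z ^ 2 - 5 * Z + 11) * (Z + 1) * W := by rw [hT]; field_simp
    have h2 := congrArg j h1
    rw [ht7]
    simp only [map_sub, map_add, map_mul, map_pow, map_ofNat, map_one] at h2
    exact h2
  have hztr : Transcendental ℂ z := by
    rw [← hzX]
    exact (transcendental_algebraMap_iff hPinj).2 (Polynomial.transcendental_X ℂ)
  have hgen : IntermediateField.adjoin ℂ {t, z} = ⊤ := by
    rw [eq_top_iff]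
    set M := IntermediateField.adjoin ℂ {t, z} with hM
    have htM : t ∈ M := IntermediateField.subset_adjoin ℂ _ (by simp)
    have hzM : z ∈ M := IntermediateField.subset_adjoin ℂ _ (by simp)
    have hzle : ℂ⟮z⟯ ≤ M := by
      rw [IntermediateField.adjoin_simple_le_iff]; exact hzM
    have hEM : ∀ c, j (e c) ∈ M := fun c => hzle (hEmem c)
    have hnum : ∀ n : ℕ, (n : K) ∈ M := fun n => _root_.natCast_mem M n
    have hu : (2 * z ^ 2 - 5 * z + 11) * (z + 1) ≠ 0 := by
      have h1 : (2 * z ^ 2 - 5 * z + 11) * (z + 1) =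
          algebraMap ℂ[X] K ((2 * X ^ 2 - 5 * X + 11) * (X + 1)) := by
        simp only [map_sub, map_add, map_mul, map_pow, map_ofNat, hzX, map_one]
      rw [h1]
      intro h
      rw [← map_zero (algebraMap ℂ[X] K)] at h
      have h2 := congrArg (Polynomial.eval 0) (hPinj h)
      simp at h2
    have hWM : j W ∈ M := by
      have h1 : j W = (162 * t ^ 7 - ((z + 2) * (2 * z ^ 2 - 5 * z + 11) ^ 2 - 162)) /
          ((2 * z ^ 2 - 5 * z + 11) * (z + 1)) := by
        rw [eq_div_iff hu, htpow]; ring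
      rw [h1]
      have m2 : (2 : K) ∈ M := by exact_mod_cast hnum 2
      have m5 : (5 : K) ∈ M := by exact_mod_cast hnum 5
      have m11 : (11 : K) ∈ M := by exact_mod_cast hnum 11
      have m162 : (162 : K) ∈ M := by exact_mod_cast hnum 162
      have mu : 2 * z ^ 2 - 5 * z + 11 ∈ M :=
        add_mem (sub_mem (mul_mem m2 (pow_mem hzM 2)) (mul_mem m5 hzM)) m11
      exact div_mem (sub_mem (mul_mem m162 (pow_mem htM 7))
        (sub_mem (mul_mem (add_mem hzM m2) (pow_mem mu 2)) m162))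
        (mul_mem mu (add_mem hzM (one_mem M)))
    have hFM : ∀ f : F, j f ∈ M := by
      intro f
      obtain ⟨a, b, rfl⟩ := hFrep f
      rw [map_add, map_mul]
      exact add_mem (hEM a) (mul_mem (hEM b) hWM)
    intro k _
    exact hind (fun k => k ∈ M) (fun a b ha hb => add_mem ha hb)
      (fun n c => mul_mem (hFM c) (pow_mem htM n)) k
  have hcurve : IsCurve K := isCurve_of K hPinj {t, z} (Set.toFinite _) hgen
  -- the fixed field
  have hfixed : ∀ f : K, ρ f = f → ∃ a : F, f = j a := by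
    -- averages
    have havg : ∀ f : K, ∃ a : F, ∑ i ∈ Finset.range 7, (ρ ^ i) f = j a := by
      apply hind
      · rintro a b ⟨a', ha⟩ ⟨b', hb⟩
        refine ⟨a' + b', ?_⟩
        simp only [map_add]
        rw [Finset.sum_add_distrib, ha, hb]
      · intro n c
        have h1 : ∑ i ∈ Finset.range 7, (ρ ^ i) (j c * t ^ n) =
            (∑ i ∈ Finset.range 7, (algebraMap ℂ K (ζ ^ n)) ^ i) * (j c * t ^ n) := by
          rw [Finset.sum_mul]
          apply Finset.sum_congr rfl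
          intro i _
          rw [map_mul, map_pow, hρpow, hρtn, mul_pow, map_pow, ← pow_mul, ← pow_mul, mul_comm n i]
          ring
        rw [h1]
        by_cases h7 : 7 ∣ n
        · obtain ⟨r, rfl⟩ := h7
          refine ⟨7 * (c * T ^ r), ?_⟩
          rw [pow_mul ζ, hζ.pow_eq_one, one_pow, map_one, pow_mul t, ht7]
          simp only [one_pow, Finset.sum_const, Finset.card_range, map_mul, map_pow, map_ofNat]
          norm_num
        · refine ⟨0, ?_⟩
          have h2 : ∑ i ∈ Finset.range 7, (ζ ^ n) ^ i = 0 := by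
            have hprim : IsPrimitiveRoot (ζ ^ n) 7 :=
              hζ.pow_of_coprime n ((Nat.Prime.coprime_iff_not_dvd (by norm_num)).2 h7).symm
            exact hprim.geom_sum_eq_zero (by norm_num)
          have h3 : ∑ i ∈ Finset.range 7, (algebraMap ℂ K (ζ ^ n)) ^ i = 0 := by
            have := congrArg (algebraMap ℂ K) h2
            rw [map_sum, map_zero] at this
            simpa only [map_pow] using this
          rw [h3, zero_mul, map_zero]
    intro f hf
    have hfi : ∀ i : ℕ, (ρ ^ i) f = f := by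
      intro i
      induction i with
      | zero => rfl
      | succ i ih => rw [pow_succ, RingHom.mul_def, RingHom.comp_apply, hf, ih]
    obtain ⟨a, ha⟩ := havg f
    refine ⟨a / 7, ?_⟩
    rw [map_div₀, ← ha]
    simp only [hfi, Finset.sum_const, Finset.card_range, map_ofNat]
    have h7 : (7 : K) ≠ 0 := by
      have : CharZero K := charZero_of_injective_algebraMap j.injective
      norm_num
    rw [nsmul_eq_mul]
    field_simp
    norm_num
  refine ⟨K, iK, iCK, ⟨⟨ζ, ρE, ιE, t, z, j W, hcurve, hζ, hztr, ?_, htpow, ?_, ?_, ?_, ?_, ?_, ?_, ?_,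
    ?_, hgen⟩⟩⟩
  · rw [← map_pow, hW]
    simp only [map_sub, map_add, map_mul, map_pow, map_ofNat, hz]
  · rw [hρE, hρt, Algebra.smul_def]
  · rw [hρE]; exact hρF _
  · rw [hρE]; exact hρF _
  · ext k
    have : ∀ n : ℕ, ∀ k, (ρE ^ n) k = (ρ ^ n) k := by
      intro n
      induction n with
      | zero => intro k; rfl
      | succ n ih =>
        intro k
        rw [pow_succ, pow_succ, AlgEquiv.mul_apply, RingHom.mul_def, RingHom.comp_apply, ih, hρE]
    rw [this, hρ7]; rfl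
  · rw [hιE]; exact hιt
  · rw [hιE, hz, hιF, RingHom.comp_apply, hσZ]
  · rw [hιE, hιF, RingHom.comp_apply, hσW, map_neg]
  · intro f hf
    rw [hρE] at hf
    obtain ⟨a, rfl⟩ := hfixed f hf
    obtain ⟨b, c, rfl⟩ := hFrep a
    exact ⟨_, hEmem b, _, hEmem c, by rw [map_add, map_mul]⟩

end Pool.Agent.W839.EG.Ex
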